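import Pool.Agent.MP_6a4325_al.H84.Spec3

/-! Row DEL: a subgroup of finite index whose derived subgroup is locally finite. -/

set_option autoImplicit false

namespace Pool.Agent.MP_6a4325_al.H70

open Pool.Agent.MP_6a4325_al.H62 Pool.Agent.MP_6a4325_al.H84

namespace Del

variable {G : Type} [Group G]

theorem ex_tf {Z : Subgroup G} (h : Cm Z Z) (hZ : Z.FG) (hi : Z.FiniteIndex) :
    ∃ m, (h.pw m).FiniteIndex ∧ Tf (h.pw m) := by
  let := h.commGroup
  have hfg : Group.FG Z := (Group.fg_iff_subgroup_fg Z).2 hZ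
  have h1 : Group.FG (CommGroup.torsion Z) := (Group.fg_iff_subgroup_fg _).2 (H7.fg_of_comm _)
  have h2 : Finite (CommGroup.torsion Z) :=
    CommGroup.finite_of_fg_isMulTorsion _ CommMonoid.torsion.isMulTorsion
  have h3 : ∀ z ∈ Z, IsOfFinOrder z → z ^ Nat.card (CommGroup.torsion Z) = 1 := by
    intro z hz hf
    have hf1 : IsOfFinOrder (Z.subtype ⟨z, hz⟩) := hf
    have hf2 : IsOfFinOrder (⟨z, hz⟩ : Z) := Z.subtype_injective.isOfFinOrder_iff.1 hf1
    have := pow_card_eq_one' (G := CommGroup.torsion Z) (x := ⟨⟨z, hz⟩, hf2⟩)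
    exact congrArg (fun u : CommGroup.torsion Z => ((u : Z) : G)) this
  have h4 : 0 < Nat.card (CommGroup.torsion Z) := Nat.card_pos
  refine ⟨Nat.card (CommGroup.torsion Z), ?_, ?_⟩
  · have h5 := finiteIndex_map_subtype Z hi _
      (Subgroup.finiteIndex_range_powMonoidHom_of_fg Z h4.ne')
    refine @Subgroup.finiteIndex_of_le _ _ _ _ h5 ?_
    rintro _ ⟨_, ⟨z, rfl⟩, rfl⟩
    exact ⟨z, z.2, rfl⟩
  · rintro _ ⟨z, hz, rfl⟩ hf
    exact h3 z hz (hf.of_pow h4.ne')

/-- the elements whose centralisers have finite index in all finitely generated subgroups -/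
def dl (G : Type) [Group G] : Subgroup G where
  carrier := {g | ∀ L : Subgroup G, L.FG → (Subgroup.centralizer ({g} : Set G)).relIndex L ≠ 0}
  one_mem' := fun L _ => by
    have : Subgroup.centralizer ({1} : Set G) = ⊤ := by
      rw [eq_top_iff]
      exact fun x _ => Subgroup.mem_centralizer_singleton_iff.2 (by rw [mul_one, one_mul])
    rw [this, Subgroup.relIndex_top_left]
    exact one_ne_zero
  mul_mem' := fun {a b} ha hb L hL e =>
    Subgroup.relIndex_inf_ne_zero (ha L hL) (hb L hL) (Subgroup.relIndex_eq_zero_of_le_left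
      (fun x hx => Subgroup.mem_centralizer_singleton_iff.2 (by
        rw [← mul_assoc, Subgroup.mem_centralizer_singleton_iff.1 hx.1, mul_assoc,
          Subgroup.mem_centralizer_singleton_iff.1 hx.2, mul_assoc])) e)
  inv_mem' := fun {a} ha L hL e =>
    ha L hL (Subgroup.relIndex_eq_zero_of_le_left
      (fun x hx => Subgroup.mem_centralizer_singleton_iff.2
        (show Commute x a from Subgroup.mem_centralizer_singleton_iff.1 hx).inv_right) e)

theorem lfd_dl : LFD (dl G) := by
  refine lfd_of_center fun T => ?_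
  set H := Subgroup.closure (↑T : Set (dl G))
  let f : H →* G := (dl G).subtype.comp H.subtype
  have hr : f.range.FG := by
    rw [MonoidHom.range_comp, Subgroup.range_subtype]
    exact H7.fg_map ⟨T, rfl⟩ _
  have h1 : (⨅ t ∈ T, (Subgroup.centralizer ({(t : G)} : Set G)).comap f).FiniteIndex :=
    Subgroup.finiteIndex_iInf' _ fun t _ => ⟨by
      rw [Subgroup.index_comap]
      exact t.2 _ hr⟩
  refine @Subgroup.finiteIndex_of_le _ _ _ _ h1 fun z hz => ?_
  rw [Subgroup.mem_center_iff]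
  rintro ⟨g, hg⟩
  apply Subtype.ext
  have h3 : H ≤ Subgroup.centralizer {(z : dl G)} := by
    rw [Subgroup.closure_le]
    intro t ht
    have h4 := Subgroup.mem_iInf.mp (Subgroup.mem_iInf.mp hz t) ht
    exact Subgroup.mem_centralizer_singleton_iff.mpr (Subtype.ext
      (Subgroup.mem_centralizer_singleton_iff.mp h4).symm)
  exact Subgroup.mem_centralizer_singleton_iff.mp (h3 hg)

/-- among `D + 1` elements of a good subgroup two differ by an element with a large centraliser -/
theorem pigeon (hV : SVal) (hC : SCen) (p : ℕ) [Fact p.Prime] {L : Type} [Group L]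
    (E : Subgroup L) (D : ℕ) (hL : NVS L) (hE : Finite E) (hF : Fb (Kp p) E D)
    (g : Fin (D + 1) → L) : ∃ i j, i ≠ j ∧
      (Subgroup.centralizer ({(g i)⁻¹ * g j} : Set L)).FiniteIndex := by
  obtain ⟨A₀, n0, f0, c0⟩ := hV p L E D hL hE hF
  have c0 : Cm A₀ A₀ := c0
  obtain ⟨m, f1, t1⟩ := ex_tf c0 (hL.1 _) f0
  obtain ⟨i0, i1, -⟩ := hC p L E (c0.pw m) D hE hF (c0.pw_normal m) (hL.1 _)
    (fun a ha b hb => c0 a (c0.pw_le m ha) b (c0.pw_le m hb)) t1
  set C := Subgroup.centralizer (c0.pw m : Set L)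
  have : Finite (L ⧸ C) := Nat.finite_of_card_ne_zero i0
  have := Fintype.ofFinite (L ⧸ C)
  obtain ⟨i, j, hij, e⟩ := Fintype.exists_ne_map_eq_of_card_lt (fun i => (g i : L ⧸ C)) (by
    rw [Fintype.card_fin, ← Nat.card_eq_fintype_card]
    exact Nat.lt_succ_of_le i1)
  refine ⟨i, j, hij, @Subgroup.finiteIndex_of_le _ _ _ _ f1 fun a ha => ?_⟩
  exact Subgroup.mem_centralizer_singleton_iff.2
    (Subgroup.mem_centralizer_iff.1 (QuotientGroup.eq.1 e) a ha)

end Del

open Del in
theorem del : SVal → SCen → SDel := by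
  classical
  intro hV hC p _ G _ E D hG hE hF
  refine ⟨dl G, ?_, lfd_dl⟩
  rw [Subgroup.finiteIndex_iff_finite_quotient, ← not_infinite_iff_finite]
  intro hi
  let q : Fin (D + 1) → G ⧸ dl G := fun i => Infinite.natEmbedding _ i
  have hq : Function.Injective q := fun i j e =>
    Fin.ext ((Infinite.natEmbedding (G ⧸ dl G)).injective e)
  let g : Fin (D + 1) → G := fun i => (q i).out
  have hw : ∀ ij : Fin (D + 1) × Fin (D + 1), ∃ W : Subgroup G, W.FG ∧ (ij.1 ≠ ij.2 →
      (Subgroup.centralizer ({(g ij.1)⁻¹ * g ij.2} : Set G)).relIndex W = 0) := fun ij => by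
    by_cases e : ij.1 = ij.2
    · exact ⟨⊥, Subgroup.FG.bot, fun h => absurd e h⟩
    · by_contra hc
      refine e (hq ?_)
      rw [← (q ij.1).out_eq, ← (q ij.2).out_eq]
      exact QuotientGroup.eq.2 fun W hW z => hc ⟨W, hW, fun _ => z⟩
  choose W w1 w2 using hw
  let L : Subgroup G := E ⊔ (Subgroup.closure (Set.range g) ⊔ ⨆ ij ∈ Finset.univ, W ij)
  have hL : L.FG := ((Group.fg_iff_subgroup_fg E).1 inferInstance).sup
    (((Subgroup.fg_iff _).2 ⟨_, rfl, Set.finite_range g⟩).sup
      (Subgroup.FG.biSup_finset _ _ fun ij _ => w1 ij))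
  have gL : ∀ i, g i ∈ L := fun i =>
    Subgroup.mem_sup_right (Subgroup.mem_sup_left (Subgroup.subset_closure ⟨i, rfl⟩))
  have hE' : Finite (E.subgroupOf L) :=
    Finite.of_equiv _ (Subgroup.subgroupOfEquivOfLe (le_sup_left : E ≤ L)).symm.toEquiv
  obtain ⟨i, j, hij, fi⟩ := pigeon hV hC p (E.subgroupOf L) D (hG L hL) hE'
    (hF L le_sup_left hL) fun i => ⟨g i, gL i⟩
  have WL : W (i, j) ≤ L := le_sup_of_le_right (le_sup_of_le_right
    (le_iSup₂_of_le (f := fun ij (_ : ij ∈ Finset.univ) => W ij) (i, j) (Finset.mem_univ _) le_rfl))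
  have z := Subgroup.relIndex_eq_zero_of_le_right WL (w2 (i, j) hij)
  refine (@Subgroup.finiteIndex_of_le _ _ _ _ fi fun x hx => ?_).index_ne_zero z
  exact Subgroup.mem_centralizer_singleton_iff.2
    (congrArg Subtype.val (Subgroup.mem_centralizer_singleton_iff.1 hx))

end Pool.Agent.MP_6a4325_al.H70
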